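import Pool.Agent.H7.HD.Targets12
import Pool.Agent.H64.HDA.DN
import Pool.Agent.H3.HD.DM

/-!
# DER of hd8_modules: definability with codes (MP_e37c09_lc)
-/

open Ordinal Cardinal Order Set
open scoped ZFSet

universe u

namespace Pool.Agent.H34.HDB.DER

open _root_.HD
open Pool.Agent.H64.HDA.DN (do_sInf)
open Pool.Agent.H3.HD.DM (dz_hod)

theorem od_V (a : Ordinal.{u}) : OD (V_ a) := by
  refine OD.of_dz ?_
  refine (DZ.sub (a := a.toZFSet) (R := fun b v => b.IsOrdinal ∧ v 0 = V_ b.rank)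
    (DZ.eqOrd a 0) ?_).congr fun v => ?_
  · exact (loc_V 0 1).dz
  · simp [ZFSet.isOrdinal_toZFSet, rank_toZFSet]

theorem od_iV {x : ZFSet.{u}} (hx : OD x) (a : Ordinal.{u}) : OD (x ∩ V_ a) := by
  refine OD.of_mem (P := fun v => v 0 ∈ x ∧ v 0 ∈ V_ a) ?_ fun v => ZFSet.mem_inter.symm
  exact (DZ.od (R := fun b v => v 0 ∈ b) hx (DZ.mem 1 0)).and
    (DZ.od (R := fun b v => v 0 ∈ b) (od_V a) (DZ.mem 1 0))

/-- substitution of two codes -/
theorem do_en {en : Ordinal.{u} → ZFSet.{u}} (hen : EN en) {P : (ℕ → ZFSet.{u}) → Prop}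
    (hP : DZ P) : DO fun w => P (fun n => if n = 1 then en (w 1) else if n = 2 then en (w 2) else
      (w 0).toZFSet) := by
  have h1 : DZ fun v : ℕ → ZFSet.{u} => ∃ y, ((v 1).IsOrdinal ∧ y = en (v 1).rank) ∧
      ∃ z, ((v 2).IsOrdinal ∧ z = en (v 2).rank) ∧
        P (fun n => if n = 1 then y else if n = 2 then z else v 0) := by
    refine DZ.ex (R := fun y v => ((v 1).IsOrdinal ∧ y = en (v 1).rank) ∧
      ∃ z, ((v 2).IsOrdinal ∧ z = en (v 2).rank) ∧
        P (fun n => if n = 1 then y else if n = 2 then z else v 0)) (DZ.and ?_ ?_)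
    · exact hen.dz.ren fun n => if n = 0 then 2 else 0
    refine DZ.ex (R := fun z v => ((v 3).IsOrdinal ∧ z = en (v 3).rank) ∧
        P (fun n => if n = 1 then v 0 else if n = 2 then z else v 1)) (DZ.and ?_ ?_)
    · exact hen.dz.ren fun n => if n = 0 then 4 else 0
    refine (hP.ren fun n => if n = 1 then 1 else if n = 2 then 0 else 2).congr fun v => ?_
    have h : (fun n => if n = 1 then v (0 + 1) else if n = 2 then v 0 else v (1 + 1)) =
        fun n => v (if n = 1 then 1 else if n = 2 then 0 else 2) := by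
      funext n
      split_ifs <;> rfl
    beta_reduce
    rw [h]
  refine h1.do.congr fun w => ?_
  have e1 : (ov w 1).rank = w 1 := rank_toZFSet _
  have e2 : (ov w 2).rank = w 2 := rank_toZFSet _
  have e0 : ov w 0 = (w 0).toZFSet := rfl
  rw [e1, e2, e0]
  constructor
  · intro h
    exact ⟨_, ⟨ZFSet.isOrdinal_toZFSet _, rfl⟩, _, ⟨ZFSet.isOrdinal_toZFSet _, rfl⟩, h⟩
  · rintro ⟨y, ⟨-, rfl⟩, z, ⟨-, rfl⟩, h⟩
    exact h

/-- the predicate `VH` -/
theorem dz_VH : DZ.{u} fun v => (v 0).IsOrdinal ∧ VH (v 0).rank (v 1) := by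
  refine (DZ.and (dz_hod 1) (DZ.ex (R := fun z v => ((v 0).IsOrdinal ∧ z = V_ (v 0).rank) ∧
    v 1 ⊆ z) (DZ.and (loc_V 1 0).dz (Loc.sub 2 0).dz))).congr fun v => ?_
  constructor
  · rintro ⟨h, h1, h2⟩
    exact ⟨h1, _, ⟨h, rfl⟩, h2⟩
  · rintro ⟨h1, _, ⟨h, rfl⟩, h2⟩
    exact ⟨h, h1, h2⟩

theorem do_VH {en : Ordinal.{u} → ZFSet.{u}} (hen : EN en) :
    DO fun w => VH (w 0) (en (w 1)) := by
  refine (do_en hen dz_VH).congr fun w => ?_
  have e0 : (fun n => if n = 1 then en (w 1) else if n = 2 then en (w 2) else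
      (w 0).toZFSet) 0 = (w 0).toZFSet := rfl
  have e1 : (fun n => if n = 1 then en (w 1) else if n = 2 then en (w 2) else
      (w 0).toZFSet) 1 = en (w 1) := rfl
  rw [e0, e1, rank_toZFSet]
  exact ⟨fun h => ⟨ZFSet.isOrdinal_toZFSet _, h⟩, fun h => h.2⟩

/-- the codes of the traces -/
theorem do_tr {en : Ordinal.{u} → ZFSet.{u}} (hen : EN en) {y : ZFSet.{u}} (hy : OD y) :
    DO fun w => en (w 1) = y ∩ V_ (w 0) := by
  have h0 : DZ fun v : ℕ → ZFSet.{u} => (v 0).IsOrdinal ∧ v 1 = y ∩ V_ (v 0).rank := by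
    refine (DZ.ex (R := fun z v => ((v 0).IsOrdinal ∧ z = V_ (v 0).rank) ∧
      ∀ t, (t ∈ v 1 ↔ t ∈ y ∧ t ∈ z)) (DZ.and (loc_V 1 0).dz ?_)).congr fun v => ?_
    · refine DZ.all (R := fun t v => (t ∈ v 2 ↔ t ∈ y ∧ t ∈ v 0)) ((DZ.mem 0 3).iff
        (DZ.and ?_ (DZ.mem 0 1)))
      exact DZ.od (R := fun b v => v 0 ∈ b) hy (DZ.mem 1 0)
    · constructor
      · rintro ⟨h, h1⟩
        refine ⟨_, ⟨h, rfl⟩, fun t => ?_⟩
        rw [h1, ZFSet.mem_inter]
      · rintro ⟨_, ⟨h, rfl⟩, h1⟩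
        refine ⟨h, ?_⟩
        ext t
        rw [h1, ZFSet.mem_inter]
  refine (do_en hen h0).congr fun w => ?_
  have e0 : (fun n => if n = 1 then en (w 1) else if n = 2 then en (w 2) else
      (w 0).toZFSet) 0 = (w 0).toZFSet := rfl
  have e1 : (fun n => if n = 1 then en (w 1) else if n = 2 then en (w 2) else
      (w 0).toZFSet) 1 = en (w 1) := rfl
  rw [e0, e1, rank_toZFSet]
  exact ⟨fun h => ⟨ZFSet.isOrdinal_toZFSet _, h⟩, fun h => h.2⟩

theorem X (hDSA : T_DSA.{u}) : T_DER.{u} := by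
  intro en hen
  refine ⟨do_VH hen, ?_, ?_⟩
  · intro y hy
    refine ⟨fun b => sInf {a | en a = y ∩ V_ b}, ?_, ?_⟩
    · have h := do_sInf (S := fun z w => en z = y ∩ V_ (w 0))
        ((do_tr hen hy).ren fun n => if n = 0 then 1 else 0) 1
      exact h
    · intro b
      have hne : ({a | en a = y ∩ V_ b}).Nonempty := (hen.od _).1 (od_iV hy b)
      exact csInf_mem hne
  · intro φ v hv
    have hs0 : DO fun w => Sat (VH (w 0)) φ (tr v (w 0)) := by
      refine (do_en hen (hDSA φ 0 v hv)).congr fun w => ?_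
      have e0 : (fun n => if n = 1 then en (w 1) else if n = 2 then en (w 2) else
          (w 0).toZFSet) 0 = (w 0).toZFSet := rfl
      have e : (fun n => if n < 0 then (fun n => if n = 1 then en (w 1) else if n = 2 then
          en (w 2) else (w 0).toZFSet) (n + 1) else v (n - 0) ∩ V_ (w 0)) = tr v (w 0) := by
        funext n
        rw [if_neg (Nat.not_lt_zero n)]
        rfl
      rw [e0, rank_toZFSet, e]
      exact ⟨fun h => ⟨ZFSet.isOrdinal_toZFSet _, h⟩, fun h => h.2⟩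
    have hs1 : DO fun w => Sat (VH (w 0)) φ (cons (en (w 1)) (tr v (w 0))) := by
      refine (do_en hen (hDSA φ 1 v hv)).congr fun w => ?_
      have e0 : (fun n => if n = 1 then en (w 1) else if n = 2 then en (w 2) else
          (w 0).toZFSet) 0 = (w 0).toZFSet := rfl
      have e : (fun n => if n < 1 then (fun n => if n = 1 then en (w 1) else if n = 2 then
          en (w 2) else (w 0).toZFSet) (n + 1) else v (n - 1) ∩ V_ (w 0)) =
            cons (en (w 1)) (tr v (w 0)) := by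
        funext n
        rcases n with _ | n
        · rfl
        · rw [if_neg (by omega)]
          rfl
      rw [e0, rank_toZFSet, e]
      exact ⟨fun h => ⟨ZFSet.isOrdinal_toZFSet _, h⟩, fun h => h.2⟩
    have hs2 : DO fun w => Sat (VH (w 0)) φ (cons (en (w 1)) (cons (en (w 2)) (tr v (w 0)))) := by
      refine (do_en hen (hDSA φ 2 v hv)).congr fun w => ?_
      have e0 : (fun n => if n = 1 then en (w 1) else if n = 2 then en (w 2) else
          (w 0).toZFSet) 0 = (w 0).toZFSet := rfl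
      have e : (fun n => if n < 2 then (fun n => if n = 1 then en (w 1) else if n = 2 then
          en (w 2) else (w 0).toZFSet) (n + 1) else v (n - 2) ∩ V_ (w 0)) =
            cons (en (w 1)) (cons (en (w 2)) (tr v (w 0))) := by
        funext n
        rcases n with _ | _ | n
        · rfl
        · rfl
        · rw [if_neg (by omega)]
          rfl
      rw [e0, rank_toZFSet, e]
      exact ⟨fun h => ⟨ZFSet.isOrdinal_toZFSet _, h⟩, fun h => h.2⟩
    refine ⟨hs0, hs1, ?_⟩
    refine ((do_VH hen).and (((do_VH hen).ren fun n => if n = 0 then 0 else 2).and hs2)).congr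
      fun w => ?_
    rfl

end Pool.Agent.H34.HDB.DER
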